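import Pool.Agent.Y63.NV.Stm

set_option autoImplicit false

/-!
# Project NV, the statement RINJ: invariant blocks are determined on invariant elements
-/

open scoped Classical

noncomputable section

namespace Pool.Agent.Y405.NV

open Pool.Agent.Y63.NV

section

variable {F : Type} [Field F] {H : Type} [Group H] [Finite H]

/-- a function as an element of the group algebra -/
def ofF (f : H → F) : MonoidAlgebra F H := MonoidAlgebra.ofCoeff (Finsupp.equivFunOnFinite.symm f)

lemma coeff_ofF (f : H → F) (x : H) : (ofF f).coeff x = f x := rfl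

omit [Finite H] in
lemma class_iff (z : MonoidAlgebra F H) :
    z ∈ Subring.center (MonoidAlgebra F H) ↔ IsClassFun (fun x => z.coeff x) := by
  rw [Subring.mem_center_iff]
  constructor
  · intro h g x
    have h1 := congrArg (fun a => MonoidAlgebra.coeff a (g * x)) (h (MonoidAlgebra.single g 1))
    simp only [MonoidAlgebra.coeff_single_mul_apply, MonoidAlgebra.coeff_mul_single_apply,
      one_mul, mul_one, inv_mul_cancel_left] at h1
    exact h1.symm
  · intro h a
    ext g
    rw [MonoidAlgebra.coeff_mul_apply_left, MonoidAlgebra.coeff_mul_apply_right]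
    refine Finsupp.sum_congr fun y _ => ?_
    have h1 : z.coeff (y * (y⁻¹ * g) * y⁻¹) = z.coeff (y⁻¹ * g) := h y (y⁻¹ * g)
    rw [mul_inv_cancel_left] at h1
    rw [h1, mul_comm]

lemma coeff_mul_eq (z w : MonoidAlgebra F H) :
    (fun x => (z * w).coeff x) = conv (fun x => z.coeff x) (fun x => w.coeff x) := by
  have := Fintype.ofFinite H
  funext x
  rw [MonoidAlgebra.coeff_mul_apply_left, Finsupp.sum_fintype _ _ (fun i => by rw [zero_mul])]
  unfold conv
  rw [finsum_eq_sum_of_fintype]

lemma block_zero {B : (H → F) → F} (hB : IsBlock B) : B 0 = 0 := by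
  have h := hB.smul 0 0 (fun _ _ => rfl)
  rw [zero_smul, zero_mul] at h
  exact h

/-- a block as a ring homomorphism -/
def toRH {B : (H → F) → F} (hB : IsBlock B) : Subring.center (MonoidAlgebra F H) →+* F where
  toFun z := B (fun x => z.1.coeff x)
  map_one' := by
    rw [← hB.one]
    have h1 : (fun x => (1 : MonoidAlgebra F H).coeff x) = (Pi.single 1 1 : H → F) := by
      funext x
      rw [MonoidAlgebra.one_def, MonoidAlgebra.coeff_single, Finsupp.single_apply,
        Pi.single_apply]
      by_cases hx : x = 1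
      · rw [if_pos hx, if_pos hx.symm]
      · rw [if_neg hx, if_neg (fun h => hx h.symm)]
    exact congrArg B h1
  map_mul' z w := by
    rw [← hB.mul _ _ ((class_iff z.1).mp z.2) ((class_iff w.1).mp w.2), ← coeff_mul_eq]
    rfl
  map_zero' := block_zero hB
  map_add' z w := by
    rw [← hB.add _ _ ((class_iff z.1).mp z.2) ((class_iff w.1).mp w.2)]
    rfl

lemma toRH_apply {B : (H → F) → F} (hB : IsBlock B) (z : Subring.center (MonoidAlgebra F H)) :
    toRH hB z = B (fun x => z.1.coeff x) := rfl

/-- a class function as an element of the centre -/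
def ofC (f : H → F) (hf : IsClassFun f) : Subring.center (MonoidAlgebra F H) :=
  ⟨ofF f, (class_iff _).mpr hf⟩

lemma toRH_ofC {B : (H → F) → F} (hB : IsBlock B) (f : H → F) (hf : IsClassFun f) :
    toRH hB (ofC f hf) = B f := rfl

lemma class_const (c : F) : IsClassFun (c • (Pi.single 1 1 : H → F)) := by
  intro g x
  have h1 : (g * x * g⁻¹ = 1) ↔ (x = 1) := by
    rw [mul_inv_eq_one, mul_eq_left]
  simp only [Pi.smul_apply, Pi.single_apply, h1]

/-- the scalars in the centre -/
def ofS (c : F) : Subring.center (MonoidAlgebra F H) := ofC (c • (Pi.single 1 1 : H → F))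
  (class_const c)

lemma coeff_ofS (c : F) (x : H) : (ofS c : Subring.center (MonoidAlgebra F H)).1.coeff x =
    if x = 1 then c else 0 := by
  show (c • (Pi.single 1 1 : H → F)) x = _
  rw [Pi.smul_apply, Pi.single_apply, smul_eq_mul, mul_ite, mul_one, mul_zero]

lemma toRH_ofS {B : (H → F) → F} (hB : IsBlock B) (c : F) : toRH hB (ofS c) = c := by
  unfold ofS
  rw [toRH_ofC, hB.smul, hB.one, mul_one]
  have := class_const (H := H) (1 : F)
  rwa [one_smul] at this

end

section

variable {F : Type} [Field F] {Γ : Type} [Group Γ] [Finite Γ] (G : Subgroup Γ) [G.Normal]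

/-- conjugation on the centre -/
def sg (g : Γ) : Subring.center (MonoidAlgebra F G) ≃+* Subring.center (MonoidAlgebra F G) :=
  Subring.centerCongr (MonoidAlgebra.domCongr F F (MulAut.conjNormal (H := G) g)).toRingEquiv

lemma coeff_sg (g : Γ) (z : Subring.center (MonoidAlgebra F G)) (x : G) :
    (sg G g z).1.coeff x = z.1.coeff ((MulAut.conjNormal (H := G) g).symm x) := by
  show (MonoidAlgebra.domCongr F F (MulAut.conjNormal (H := G) g) z.1).coeff x = _
  rw [MonoidAlgebra.coeff_domCongr]

lemma sg_sg (g h : Γ) (z : Subring.center (MonoidAlgebra F G)) :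
    sg G g (sg G h z) = sg G (g * h) z := by
  apply Subtype.ext
  ext x
  rw [coeff_sg, coeff_sg, coeff_sg]
  congr 1
  rw [map_mul]
  rfl

lemma conj_symm_eq {g : Γ} {x y : G} (h : (y : Γ) = g * x * g⁻¹) :
    (MulAut.conjNormal (H := G) g).symm y = x := by
  rw [MulEquiv.symm_apply_eq]
  apply Subtype.ext
  rw [MulAut.conjNormal_apply]
  exact h

lemma sg_ofS (g : Γ) (c : F) : sg G g (ofS c) = ofS c := by
  apply Subtype.ext
  ext x
  rw [coeff_sg, coeff_ofS, coeff_ofS]
  by_cases hx : x = 1
  · rw [if_pos hx, if_pos (by rw [hx, map_one])]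
  · rw [if_neg hx, if_neg (fun h => hx (by rwa [EmbeddingLike.map_eq_one_iff] at h))]

lemma toRH_sg {B : (G → F) → F} (hB : IsBlock B) (hI : IsInvBlock G B) (g : Γ)
    (z : Subring.center (MonoidAlgebra F G)) : toRH hB (sg G g z) = toRH hB z := by
  rw [toRH_apply, toRH_apply]
  refine hI g _ _ ((class_iff z.1).mp z.2) fun x y hxy => ?_
  rw [coeff_sg, conj_symm_eq G hxy]

/-- the norm -/
def nrm (z : Subring.center (MonoidAlgebra F G)) (c : F) : Subring.center (MonoidAlgebra F G) :=
  letI := Fintype.ofFinite Γ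
  ∏ g : Γ, (sg G g z - ofS c)

lemma sg_nrm (h : Γ) (z : Subring.center (MonoidAlgebra F G)) (c : F) :
    sg G h (nrm G z c) = nrm G z c := by
  letI := Fintype.ofFinite Γ
  unfold nrm
  rw [map_prod]
  simp only [map_sub, sg_sg, sg_ofS]
  exact Equiv.prod_comp (Equiv.mulLeft h)
    (fun g => (sg G g z - ofS c : Subring.center (MonoidAlgebra F G)))

lemma toRH_nrm {B : (G → F) → F} (hB : IsBlock B) (hI : IsInvBlock G B)
    (z : Subring.center (MonoidAlgebra F G)) (c : F) :
    toRH hB (nrm G z c) = (toRH hB z - c) ^ Nat.card Γ := by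
  letI := Fintype.ofFinite Γ
  unfold nrm
  rw [map_prod]
  simp only [map_sub, toRH_sg G hB hI, toRH_ofS]
  rw [Finset.prod_const, Finset.card_univ, Nat.card_eq_fintype_card]

end

theorem rinj : S_RINJ := by
  intro p _ F _ _ _ Γ _ _ G _ _ B B' hB hB' hI hI' hz f hf
  let w := nrm G (ofC f hf) (B f)
  let zz : Γ → F := fun x => if hx : x ∈ G then w.1.coeff ⟨x, hx⟩ else 0
  have hzz : ∀ x : G, zz x = w.1.coeff x := fun x => dif_pos x.2
  have hZ : InZ G zz := by
    refine ⟨fun g x => ?_, fun x hx => dif_neg hx⟩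
    by_cases hx : x ∈ G
    · have hx' : g * x * g⁻¹ ∈ G := (inferInstance : G.Normal).conj_mem x hx g
      have h1 := hzz ⟨x, hx⟩
      have h2 := hzz ⟨g * x * g⁻¹, hx'⟩
      simp only at h1 h2
      rw [h1, h2]
      have h3 : (sg G g w).1.coeff ⟨g * x * g⁻¹, hx'⟩ = w.1.coeff ⟨g * x * g⁻¹, hx'⟩ := by
        rw [sg_nrm]
      rw [← h3, coeff_sg, conj_symm_eq G (x := ⟨x, hx⟩) (y := ⟨g * x * g⁻¹, hx'⟩) rfl]
    · have hx' : g * x * g⁻¹ ∉ G := by
        intro h
        apply hx
        have := (inferInstance : G.Normal).conj_mem _ h g⁻¹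
        simpa [mul_assoc] using this
      show zz (g * x * g⁻¹) = zz x
      rw [show zz (g * x * g⁻¹) = 0 from dif_neg hx', show zz x = 0 from dif_neg hx]
  have h1 := hz zz hZ
  have h2 : (fun x : G => zz x) = fun x : G => w.1.coeff x := funext hzz
  rw [h2] at h1
  have h3 : toRH hB w = toRH hB' w := h1
  rw [toRH_nrm G hB hI, toRH_nrm G hB' hI', toRH_ofC, toRH_ofC, sub_self,
    zero_pow Nat.card_pos.ne'] at h3
  have h4 := pow_eq_zero_iff Nat.card_pos.ne' |>.mp h3.symm
  exact (sub_eq_zero.mp h4).symm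

end Pool.Agent.Y405.NV
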